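import Pool.Agent.MP_6a4325_al.H84.Spec3

/-! Closure properties of the class of `p`-by-soluble-by-finite groups. -/

set_option autoImplicit false

namespace Pool.Agent.MP_6a4325_al.H90

open Pool.Agent.MP_6a4325_al.H62 Pool.Agent.MP_6a4325_al.H84

namespace Ga2

variable {p : ℕ} {G H Q : Type} [Group G] [Group H] [Group Q]

theorem ser_pull (f : H →* G) (hf : IsPGroup p f.ker) {d : ℕ}
    (h : IsPGroup p (derivedSeries G d)) : IsPGroup p (derivedSeries H d) :=
  (h.comap_of_ker_isPGroup f hf).to_le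
    (Subgroup.map_le_iff_le_comap.1 (map_derivedSeries_le_derivedSeries f d))

theorem pull (f : H →* G) (hf : IsPGroup p f.ker) (h : PVS p G) : PVS p H := by
  obtain ⟨N, d, hN, hd⟩ := h
  refine ⟨N.comap f, d, finiteIndex_comap N hN f, ser_pull (f.subgroupComap N) ?_ hd⟩
  refine (hf.comap_subtype (K := N.comap f)).to_le fun x hx => ?_
  exact congrArg Subtype.val (MonoidHom.mem_ker.1 hx)

theorem ser_push (f : G →* Q) (N : Subgroup G) {d : ℕ} (h : IsPGroup p (derivedSeries N d)) :
    IsPGroup p (derivedSeries (N.map f) d) := by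
  rw [← map_derivedSeries_eq (f.subgroupMap_surjective N)]
  exact h.map _

theorem surj (f : G →* Q) (hf : Function.Surjective f) (h : PVS p G) : PVS p Q := by
  obtain ⟨N, d, hN, hd⟩ := h
  exact ⟨N.map f, d, finiteIndex_map N hN f hf, ser_push f N hd⟩

theorem fin (K : Subgroup G) (hK : K.FiniteIndex) (h : PVS p K) : PVS p G := by
  obtain ⟨N, d, hN, hd⟩ := h
  exact ⟨N.map K.subtype, d, finiteIndex_map_subtype K hK N hN, ser_push _ N hd⟩

theorem ofVS (h : VS G) : PVS p G := by
  obtain ⟨N, hN, d, hd⟩ := h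
  exact ⟨N, d, hN, by rw [hd]; exact IsPGroup.of_bot⟩

theorem norm (h : PVS p G) : ∃ (S : Subgroup G) (_ : S.Normal), IsPGroup p S ∧ VS (G ⧸ S) := by
  obtain ⟨N, d, hN, hd⟩ := h
  have h1 : IsPGroup p (derivedSeries N.normalCore d) :=
    ser_pull (Subgroup.inclusion N.normalCore_le)
      (IsPGroup.ker_isPGroup_of_injective (Subgroup.inclusion_injective _)) hd
  refine ⟨(derivedSeries N.normalCore d).map N.normalCore.subtype, inferInstance, h1.map _,
    N.normalCore.map (QuotientGroup.mk' _),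
    finiteIndex_map _ inferInstance _ (QuotientGroup.mk'_surjective _), d, ?_⟩
  rw [← map_derivedSeries_eq (MonoidHom.subgroupMap_surjective _ N.normalCore),
    Subgroup.map_eq_bot_iff]
  intro x hx
  exact Subtype.ext ((QuotientGroup.eq_one_iff _).2 (Subgroup.mem_map_of_mem _ hx))

theorem le_of_noP {S T : Subgroup G} [S.Normal] (h : NoP p (G ⧸ S)) (hT : T.Normal)
    (hp : IsPGroup p T) : T ≤ S := by
  have h1 := h _ (hT.map _ (QuotientGroup.mk'_surjective S)) (hp.map _)
  rwa [Subgroup.map_eq_bot_iff, QuotientGroup.ker_mk'] at h1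

variable [Fact p.Prime]

theorem noP (hV : VsApi) (hO : SOp) (N : Subgroup G) (hN : N.Normal) (hG : NoP p G)
    (h : PVS p N) : VS N := by
  obtain ⟨S, hS, h1, h2⟩ := hO p N
  have h3 : S.Characteristic := Subgroup.characteristic_iff_map_le.2 fun φ =>
    le_of_noP h2 (hS.map _ φ.surjective) (h1.map _)
  have h4 : S = ⊥ :=
    (Subgroup.map_eq_bot_iff_of_injective S N.subtype_injective).1
      (hG _ inferInstance (h1.map _))
  obtain ⟨T, hT, h5, h6⟩ := norm h
  refine hV.inj _ _ (QuotientGroup.mk' T) ?_ h6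
  rw [← MonoidHom.ker_eq_bot_iff, QuotientGroup.ker_mk', eq_bot_iff, ← h4]
  exact le_of_noP h2 hT h5

theorem ext (hV : VsApi) (hO : SOp) (N : Subgroup G) [hN : N.Normal] (h : PVS p N)
    (h' : VS (G ⧸ N)) : PVS p G := by
  obtain ⟨S, hS, h1, h2⟩ := hO p G
  have h3 : (N.map (QuotientGroup.mk' S)).Normal := hN.map _ (QuotientGroup.mk'_surjective S)
  have h4 : VS (N.map (QuotientGroup.mk' S)) :=
    noP hV hO _ h3 h2 (surj _ (MonoidHom.subgroupMap_surjective _ N) h)
  have h5 : VS ((G ⧸ S) ⧸ N.map (QuotientGroup.mk' S)) :=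
    hV.surj _ _ (QuotientGroup.map N _ (QuotientGroup.mk' S) (Subgroup.le_comap_map _ _))
      (QuotientGroup.map_surjective_of_surjective _ _ _
        (QuotientGroup.mk_surjective.comp (QuotientGroup.mk'_surjective S)) _) h'
  refine pull (QuotientGroup.mk' S) ?_ (ofVS (hV.ext _ _ h4 h5))
  rwa [QuotientGroup.ker_mk']

end Ga2

theorem pv : VsApi → SOp → SPv := fun hV hO _ _ =>
  { inj := fun _ _ _ _ f hf => Ga2.pull f (IsPGroup.ker_isPGroup_of_injective hf)
    surj := fun _ _ _ _ => Ga2.surj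
    fin := fun _ _ => Ga2.fin
    quot := fun _ _ _ _ f _ => Ga2.pull f
    ofVS := fun _ _ => Ga2.ofVS
    norm := fun _ _ => Ga2.norm
    noP := fun _ _ => Ga2.noP hV hO
    ext := fun _ _ N _ => Ga2.ext hV hO N }

end Pool.Agent.MP_6a4325_al.H90
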